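import Pool.Agent.TH875.Cm7

set_option autoImplicit false

/-!
# Ample divisors in general position and algebraic points with few places above `S`

`X = {G = 0}` is an integral closed subscheme of `ℙ^(n-1)` over a number field `K` and
`D i = X ∩ {F i = 0}`, `i < q`, are hypersurface sections of degrees `d i`.
-/

namespace Pool.Agent.Results.MP_651af7_nt.AmpleDivisorsFewPlaces

open NumberField IsDedekindDomain

/-- The point with homogeneous coordinates `x` lies on the projective scheme `{G = 0}`. -/
def On {K L : Type} [Field K] [Field L] [Algebra K L] {m n : ℕ}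
    (G : Fin m → MvPolynomial (Fin n) K) (x : Fin n → L) : Prop :=
  ∀ k, MvPolynomial.aeval x (G k) = 0

/-- The places of a number field: the archimedean places and the primes. -/
abbrev Place (L : Type) [Field L] [NumberField L] : Type :=
  InfinitePlace L ⊕ HeightOneSpectrum (𝓞 L)

/-- The absolute value of a place. At a prime it is the normalised one, with the value
`(N v) ^ (-ord_v x)` at `x ≠ 0`. -/
noncomputable def absv {L : Type} [Field L] [NumberField L] : Place L → L → ℝ
  | Sum.inl w => fun x => w x
  | Sum.inr v => fun x => FinitePlace.mk v x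

/-- The exponent of the absolute value of a place in the product formula: `1` at real places and at
primes, `2` at complex places. -/
noncomputable def weight {L : Type} [Field L] [NumberField L] : Place L → ℝ
  | Sum.inl w => w.mult
  | Sum.inr _ => 1

/-- The local height of the hypersurface `F = 0` of degree `d` at the point with homogeneous
coordinates `x`. -/
noncomputable def weil {K L : Type} [Field K] [Field L] [NumberField L] [Algebra K L] {n : ℕ}
    (p : Place L) (d : ℕ) (F : MvPolynomial (Fin n) K) (x : Fin n → L) : ℝ :=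
  Real.log ((⨆ j, absv p (x j)) ^ d / absv p (MvPolynomial.aeval x F))

/-- The sum over `i` of `1 / d i` times the proximity function of `F i = 0` at `x`, in absolute
normalisation, for the finite set `T` of places of `L`. -/
noncomputable def proximity {K L : Type} [Field K] [Field L] [NumberField L] [Algebra K L]
    {n q : ℕ} (T : Finset (Place L)) (F : Fin q → MvPolynomial (Fin n) K) (d : Fin q → ℕ)
    (x : Fin n → L) : ℝ :=
  (∑ p ∈ T, weight p * ∑ i, weil p (d i) (F i) x / d i) / Module.finrank ℚ L

/-- The absolute logarithmic height. -/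
noncomputable def height {L : Type} [Field L] [NumberField L] {n : ℕ} (x : Fin n → L) : ℝ :=
  Height.logHeight x / Module.finrank ℚ L

/-- Let `X = {G = 0}` be an integral closed subscheme of dimension `ν` of the projective space
`ℙ^(n-1)` over a number field `K`, and let `D i = X ∩ {F i = 0}`, `i < q`, be hypersurface sections
of degrees `d i ≥ 1`, no `ν + 1` of which have a common point. For every `ε > 0` there is a form `Z`
over `K`, not vanishing identically on `X`, such that for every `s` there is `C` with
`∑ i, m_{T, D i}(x) / d i ≤ (ν + 1 + ε) max(1, s/2) h(x) + C` for every number field `L ⊇ K`, every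
set `T` of at most `s` places of `L` and every `L`-rational point `x` of `X` with `Z(x) ≠ 0` which
is not in any `D i`. -/
theorem result (K : Type) [Field K] [NumberField K] (m n q ν : ℕ)
    (G : Fin m → MvPolynomial (Fin n) K) (g : Fin m → ℕ) (hG : ∀ k, (G k).IsHomogeneous (g k))
    (hX : (Ideal.span (Set.range G)).IsPrime)
    (hdim : Algebra.trdeg K (MvPolynomial (Fin n) K ⧸ Ideal.span (Set.range G)) = ν + 1)
    (F : Fin q → MvPolynomial (Fin n) K) (d : Fin q → ℕ) (hd : ∀ i, 1 ≤ d i)
    (hF : ∀ i, (F i).IsHomogeneous (d i))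
    (hgp : ∀ (e : Fin (ν + 1) ↪ Fin q) (L : Type) [Field L] [Algebra K L] (x : Fin n → L),
      On G x → (∀ k, MvPolynomial.aeval x (F (e k)) = 0) → x = 0)
    (ε : ℝ) (hε : 0 < ε) :
    ∃ Z : MvPolynomial (Fin n) K, Z ∉ Ideal.span (Set.range G) ∧ (∃ t, Z.IsHomogeneous t) ∧
      ∀ s : ℕ, ∃ C : ℝ, ∀ (L : Type) [Field L] [NumberField L] [Algebra K L]
        (T : Finset (Place L)), T.card ≤ s → ∀ x : Fin n → L, x ≠ 0 → On G x →
          (∀ i, MvPolynomial.aeval x (F i) ≠ 0) → MvPolynomial.aeval x Z ≠ 0 →
            proximity T F d x ≤ (ν + 1 + ε) * max 1 ((s : ℝ) / 2) * height x + C := by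
  classical
  have hweil : ∀ (L : Type) [Field L] [NumberField L] [Algebra K L] (p : Place L) (e : ℕ)
      (H : MvPolynomial (Fin n) K) (x : Fin n → L), weil p e H x =
      Pool.Agent.W180.OP.lam (Pool.Agent.W180.OP.av p) e (Pool.Agent.W180.OP.bc L H) x := by
    intro L _ _ _ p e H x
    unfold weil Pool.Agent.W180.OP.lam
    rw [Pool.Agent.W180.OP.eval_bc]
    cases p <;> rfl
  have hw : ∀ (L : Type) [Field L] [NumberField L] (p : Place L),
      weight p = Pool.Agent.W180.OP.wt p := by
    intro L _ _ p
    cases p <;> rfl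
  have hprox : ∀ (L : Type) [Field L] [NumberField L] [Algebra K L] (T : Finset (Place L))
      (x : Fin n → L), proximity T F d x = (∑ p ∈ T, Pool.Agent.W180.OP.wt p * ∑ i,
      Pool.Agent.W180.OP.lam (Pool.Agent.W180.OP.av p) (d i)
        (Pool.Agent.W180.OP.bc L (F i)) x / d i) / Module.finrank ℚ L := by
    intro L _ _ _ T x
    unfold proximity
    congr 1
    refine Finset.sum_congr rfl fun p _ => ?_
    rw [hw]
    congr 1
    exact Finset.sum_congr rfl fun i _ => by rw [hweil]
  rcases Nat.lt_or_ge q (ν + 1) with hq | hq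
  · -- few divisors
    choose C hC0 hC using fun i => Pool.Agent.W180.TP.liou_u (F i) (d i) (hF i)
    refine ⟨1, fun h => hX.ne_top ((Ideal.eq_top_iff_one _).2 h), ⟨0,
      MvPolynomial.isHomogeneous_one _ _⟩, fun s => ⟨∑ i, C i, ?_⟩⟩
    intro L _ _ _ T hT x hx hGx hFx _
    have hN : (0 : ℝ) < Module.finrank ℚ L := by exact_mod_cast Module.finrank_pos
    have hh := Height.logHeight_nonneg x
    have h1 : ∀ i, ∑ p ∈ T, Pool.Agent.W180.OP.wt p *
        (Pool.Agent.W180.OP.lam (Pool.Agent.W180.OP.av p) (d i)
          (Pool.Agent.W180.OP.bc L (F i)) x / d i) ≤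
          Height.logHeight x + C i * Module.finrank ℚ L := by
      intro i
      have hdi : (1 : ℝ) ≤ d i := by exact_mod_cast hd i
      have hdi0 : (0 : ℝ) < d i := by linarith
      have h2 := hC i L T x hx (hFx i)
      have h3 : ∑ p ∈ T, Pool.Agent.W180.OP.wt p *
        (Pool.Agent.W180.OP.lam (Pool.Agent.W180.OP.av p) (d i)
          (Pool.Agent.W180.OP.bc L (F i)) x / d i) ≤
          (d i * Height.logHeight x + C i * Module.finrank ℚ L) / d i := by
        rw [le_div_iff₀ hdi0]
        refine le_trans (le_of_eq ?_) ((Finset.sum_le_sum fun p _ =>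
          mul_le_mul_of_nonneg_left (le_max_right _ _)
            (Pool.Agent.W180.OP.wt_nonneg p)).trans h2)
        rw [Finset.sum_mul]
        refine Finset.sum_congr rfl fun p _ => ?_
        field_simp
      refine h3.trans ?_
      rw [add_div, mul_div_cancel_left₀ _ hdi0.ne']
      refine add_le_add le_rfl ?_
      exact div_le_self (mul_nonneg (hC0 i) hN.le) hdi
    rw [hprox, height, div_le_iff₀ hN]
    have h2 : ∑ p ∈ T, Pool.Agent.W180.OP.wt p * ∑ i,
        Pool.Agent.W180.OP.lam (Pool.Agent.W180.OP.av p) (d i)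
          (Pool.Agent.W180.OP.bc L (F i)) x / d i ≤
        ∑ i, (Height.logHeight x + C i * Module.finrank ℚ L) := by
      refine le_trans (le_of_eq ?_) (Finset.sum_le_sum fun i _ => h1 i)
      rw [Finset.sum_comm]
      refine Finset.sum_congr rfl fun p _ => ?_
      rw [Finset.mul_sum]
    rw [Finset.sum_add_distrib, Finset.sum_const, Finset.card_univ, Fintype.card_fin,
      nsmul_eq_mul, ← Finset.sum_mul] at h2
    refine h2.trans ?_
    have e1 : ((ν + 1 + ε) * max 1 ((s : ℝ) / 2) * (Height.logHeight x / Module.finrank ℚ L) +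
        ∑ i, C i) * Module.finrank ℚ L =
        (ν + 1 + ε) * max 1 ((s : ℝ) / 2) * Height.logHeight x +
          (∑ i, C i) * Module.finrank ℚ L := by
      field_simp
    rw [e1]
    refine add_le_add (mul_le_mul_of_nonneg_right ?_ hh) le_rfl
    have h3 : (q : ℝ) ≤ ν + 1 := by exact_mod_cast hq.le
    have h4 : (1 : ℝ) ≤ max 1 ((s : ℝ) / 2) := le_max_left _ _
    have h5 : (0 : ℝ) ≤ ν := Nat.cast_nonneg _
    nlinarith
  · obtain ⟨Z, hZ, hZh, C, hC0, hC⟩ := Pool.Agent.TH875.hsurf (r := ν + 1) (Nat.succ_pos ν) hq G g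
      hG hX (by rw [hdim]; push_cast; rfl) F d hd hF (fun e L _ _ x h1 h2 => hgp e L x h1 h2) ε hε
    refine ⟨Z, hZ, hZh, fun s => ⟨C * s, ?_⟩⟩
    intro L _ _ _ T hT x hx hGx hFx hZx
    have hN : (0 : ℝ) < Module.finrank ℚ L := by exact_mod_cast Module.finrank_pos
    have h1 := hC L T x hx hGx hFx hZx
    have hs : (T.card : ℝ) ≤ s := by exact_mod_cast hT
    have hh := Height.logHeight_nonneg x
    have h2 : max 1 ((T.card : ℝ) / 2) ≤ max 1 ((s : ℝ) / 2) := max_le_max le_rfl (by linarith)
    have h0 : (0 : ℝ) ≤ ν := Nat.cast_nonneg _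
    have h3 : max 1 ((T.card : ℝ) / 2) * ((((ν + 1 : ℕ) : ℝ) + ε) * Height.logHeight x) ≤
        max 1 ((s : ℝ) / 2) * ((ν + 1 + ε) * Height.logHeight x) := by
      push_cast
      exact mul_le_mul_of_nonneg_right h2 (by positivity)
    have h4 : C * T.card * Module.finrank ℚ L ≤ C * s * Module.finrank ℚ L :=
      mul_le_mul_of_nonneg_right (mul_le_mul_of_nonneg_left hs hC0) hN.le
    rw [hprox, height, div_le_iff₀ hN]
    refine (h1.trans (add_le_add h3 h4)).trans (le_of_eq ?_)
    field_simp

end Pool.Agent.Results.MP_651af7_nt.AmpleDivisorsFewPlaces
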