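import Mathlib
import Pool.Agent.TH951.NF.Count

/-!
# Heights of points of bounded degree on the moduli spaces `M_{0,n}` over number fields

Let `X` be the moduli space of stable `(n+3)`-pointed rational curves over `ℚ` and `D` its boundary,
so that `X \ D = M_{0,n+3}` is the set of tuples `(x_1, …, x_n)` of distinct elements different from
`0` and `1`. The height of every point of `X \ D` of degree at most `r` over `ℚ` is bounded by a
constant, depending only on `r`, times its counting function with respect to `D` off any given
finite set of primes, up to a bounded term: there is no discriminant and no exceptional set, if `n`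
is large in terms of `r`.
-/

set_option autoImplicit false

open NumberField Module

namespace Pool.Agent.Results.MP_651af7_nt.BoundedDegreePointsOnM0n

universe u

/-- The marked points different from infinity: `0`, `1` and `x_1, …, x_n`. -/
def mark {L : Type u} [Field L] {n : ℕ} (x : Fin n → L) : Option (Option (Fin n)) → L
  | none => 0
  | some none => 1
  | some (some i) => x i

/-- The counting function of the boundary off `D`: the sum over the finite places `w` of `L` which
do not divide `D` of the maximum of `|log ‖y‖_w|` over the differences `y` of two distinct marked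
points, divided by the degree of `L` (for a pair of equal points `Real.log 0 = 0`). -/
noncomputable def counting (D : ℕ) {L : Type u} [Field L] [NumberField L] {n : ℕ}
    (x : Fin n → L) : ℝ :=
  (finrank ℚ L : ℝ)⁻¹ * ∑ᶠ w : FinitePlace L, if w (D : L) = 1 then
    ⨆ p : Option (Option (Fin n)) × Option (Option (Fin n)),
      |Real.log (w (mark x p.1 - mark x p.2))| else 0

/-- For every `r` there are `N` and `C` such that for every `D ≠ 0` there is `A` with the following
property. Let `L` be a number field of degree at most `r`, let `n ≥ N` and let `x_1, …, x_n` be
distinct elements of `L` different from `0` and `1`. Then the absolute logarithmic height of every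
`x_i` is at most `C` times the counting function of `(x_1, …, x_n)` off `D`, plus `A`. -/
theorem result (r : ℕ) : ∃ N C : ℕ, ∀ D : ℕ, D ≠ 0 → ∃ A : ℝ, ∀ (L : Type u) [Field L]
    [NumberField L], finrank ℚ L ≤ r → ∀ (n : ℕ), N ≤ n → ∀ x : Fin n → L,
    Function.Injective x → (∀ i, x i ≠ 0) → (∀ i, x i ≠ 1) →
    ∀ i, absLogHeight₁ (x i) ≤ C * counting D x + A := by
  obtain ⟨N, C, h⟩ := TH951.NF.main_count.{u} r
  refine ⟨N, C, fun D hD => ?_⟩
  obtain ⟨A, hA⟩ := h D hD
  refine ⟨A, ?_⟩
  intro L _ _ hr n hn x hx hx0 hx1 i
  have hm : (mark x : Option (Option (Fin n)) → L) = TH951.NF.pts x := by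
    funext p
    rcases p with _ | _ | _ <;> rfl
  have h1 := hA L hr (Fin n) (by simpa using hn) x hx hx0 hx1 i
  unfold counting
  rw [hm]
  exact h1

end Pool.Agent.Results.MP_651af7_nt.BoundedDegreePointsOnM0n
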