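import Mathlib
import Pool.Agent.TH905.VF.Abs

/-!
# Vojta's inequality with proximity and discriminant on products of curves

Let `C_1, …, C_n` be smooth projective curves (over number fields) and `t_i : C_i → ℙ¹` finite maps
of degree `N_i` over `ℚ` which are unramified outside the fibres over rational points
`a_{i 1}, …, a_{i q_i} ≠ ∞`; by Belyi's theorem every curve has such a map with `q_i = 3`, and a
given finite set of points on `C_i` can be assumed to lie in these fibres. Let `A_i` be the ring of
functions on `C_i` with poles only over `∞`: a Dedekind domain, finite over `ℚ[t]`. Let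
`y_{i j 0} = t - a_{i j}, y_{i j 1}, …` be generators of the radical of the ideal `(t - a_{i j})`, the
ideal of the reduced fibre `F_{i j}` over `a_{i j}`. By the formula of Riemann and Hurwitz
`(deg K_{C_i}) / N_i = q_i - 2 - (∑_j dim (A_i / (y_{i j 0}, y_{i j 1}, …))) / N_i`.

Let `X = C_1 × ⋯ × C_n` and let `D` be the normal crossings divisor `∑_{i, j} pr_i^* F_{i j}`. The
points `P` of `X` (not over `∞`) over a number field `L` are the families of homomorphisms
`φ_i : A_i → L`, `λ_v(P) = ∑_{i, j} max(0, - log max_l |y_{i j l}(P)|_v)` is a Weil function of `D` at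
`v`, and `h_K(P) = ∑_i ((deg K_{C_i}) / N_i) h(t_i(P))` up to `ε ∑_i h(t_i(P)) + O(1)`.

Let `K` be a number field. We consider ALL points `P` of `X` above the `K`-rational points
`x = (x_1, …, x_n)`, `x_i ≠ a_{i j}`, of `(ℙ¹)^n`; their degree is at most `[K : ℚ] N_1 ⋯ N_n`. We prove
that for all `x` outside a small set, all these `P` and ALL finite sets `S` of primes satisfy
`∑_{v ∈ S ∪ {∞}} λ_{D, v}(P) + ∑_i ((deg K_{C_i}) / N_i + θ) h(x_i) ≤ d(P) + ∑_{p ∈ S} log p + c`;
for `θ = 0` this is Vojta's inequality, even without the term `ε h_A(P)`, for `θ > 0` it is stronger.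
The logarithmic discriminant is counted once, not `dim X` times as one gets from the curves.

Proof: the primes of `K` at which some `x_i` is near some `a_{i j}` contribute to the discriminant
or have primes above them at which `P` is near `D`; the local heights of `P` at the latter and at
the places in `S` are bounded by the product formula for functions on `C_i` which vanish to high
order along the fibre (see `AllCurvesProximity`, MP_71c16a_nt). For the `x` with a small truncated
counting function see `ProductFibres` (MP_9ec3f0_nt) of the starting files.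
-/

set_option autoImplicit false

namespace Pool.Agent.Results.MP_651af7_nt.ProductsOfCurvesProximity

open Polynomial NumberField IsDedekindDomain

/-- The function `t`. -/
noncomputable def coord (A : Type) [CommRing A] [Algebra ℚ[X] A] : A := algebraMap ℚ[X] A X

/-- The absolute logarithmic height of `x ∈ K`. -/
noncomputable def height {K : Type} [Field K] [NumberField K] (x : K) : ℝ :=
  Height.logHeight₁ x / Module.finrank ℚ K

/-- The logarithmic discriminant `log |disc L| / [L : ℚ]`. -/
noncomputable def logDisc (L : Type) [Field L] [NumberField L] : ℝ :=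
  Real.log |(discr L : ℝ)| / Module.finrank ℚ L

/-- `max (0, - log max_l c_l)` -/
noncomputable def minusLog {s : ℕ} (c : Fin (s + 1) → ℝ) : ℝ := max 0 (-Real.log (⨆ l, c l))

/-- The proximity function `∑_{v ∈ S ∪ {∞}} λ_{D, v}(P)`: the sum over the infinite places `w` (with
`mult w = [L_w : ℝ]`) and the primes `w` above the primes of `S` of the local heights
`∑_{i, j} max (0, - log max_l |y_{i j l}(P)|)`, divided by `[L : ℚ]`. The absolute values are
normalised so that the product formula holds: `|b|_w = N(w) ^ (- w(b))`. -/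
noncomputable def proximity (S : Finset ℕ) {n : ℕ} {q : Fin n → ℕ} {A : Fin n → Type}
    [∀ i, CommRing (A i)] {u : ∀ i, Fin (q i) → ℕ} (y : ∀ i j, Fin (u i j + 1) → A i)
    {L : Type} [Field L] [NumberField L] (φ : ∀ i, A i →+* L) : ℝ :=
  (∑ w : InfinitePlace L, (w.mult : ℝ) * ∑ i, ∑ j, minusLog (fun l => w (φ i (y i j l))) +
    ∑ᶠ w ∈ {w : HeightOneSpectrum (𝓞 L) | ∃ p ∈ S, (p : 𝓞 L) ∈ w.asIdeal},
      ∑ i, ∑ j, minusLog (fun l => FinitePlace.mk w (φ i (y i j l)))) / Module.finrank ℚ L

/-- `q - 2 - (∑_j dim (A / (y_{j 0}, y_{j 1}, …))) / N`, where `N` is the rank of `A` over `ℚ[t]`. -/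
noncomputable def canonicalDegree {A : Type} [CommRing A] [Algebra ℚ A] [Algebra ℚ[X] A] {q : ℕ}
    {u : Fin q → ℕ} (y : ∀ j, Fin (u j + 1) → A) : ℝ :=
  q - 2 - (∑ j, (Module.finrank ℚ (A ⧸ Ideal.span (Set.range (y j))) : ℝ)) /
    Module.finrank ℚ[X] A

/-- The exceptional `x = (x_1, …, x_n) ∈ K ^ n`, `x_i ≠ a_{i j}`, with coordinates of height at most
`log B`: over some number field `L` which contains `K` there is a point `P = (φ_i)` of the product
of the curves above `x` such that
`∑_{v ∈ S ∪ {∞}} λ_{D, v}(P) + ∑_i (canonicalDegree_i + θ) h(x_i) ≤ d(L) + ∑_{p ∈ S} log p + c` fails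
for some finite set `S` of primes. -/
def exceptional (K : Type) [Field K] [NumberField K] {n : ℕ} {q : Fin n → ℕ} {A : Fin n → Type}
    [∀ i, CommRing (A i)] [∀ i, Algebra ℚ (A i)] [∀ i, Algebra ℚ[X] (A i)]
    (a : ∀ i, Fin (q i) → ℚ) {u : ∀ i, Fin (q i) → ℕ} (y : ∀ i j, Fin (u i j + 1) → A i)
    (θ c B : ℝ) : Set (Fin n → K) :=
  {x | (∀ i j, x i ≠ (a i j : K)) ∧ (∀ i, Real.exp (height (x i)) ≤ B) ∧
    ∃ (L : Type) (_ : Field L) (_ : NumberField L) (_ : Algebra K L) (φ : ∀ i, A i →+* L)
      (S : Finset ℕ), (∀ i, φ i (coord (A i)) = algebraMap K L (x i)) ∧ (∀ p ∈ S, p.Prime) ∧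
      logDisc L + ∑ p ∈ S, Real.log p + c <
        proximity S y φ + ∑ i, (canonicalDegree (y i) + θ) * height (x i)}

/-- The exponent. -/
noncomputable def exponent (n Q : ℕ) (θ : ℝ) : ℝ :=
  min (max (θ * n) (2 * n - 4 / 5))
    (min ((2 - 4 * (2 - θ) / (Q : ℝ) ^ 2) * n)
      (((Q : ℝ) - 2 + θ) * (1 - (1 - 2 / (Q : ℝ)) ^ n) * n))

/-- **Vojta's inequality with proximity for points of bounded degree on products of curves.** For
`i = 1, …, n` let `A_i` be a Dedekind domain, finite over `ℚ[t]` and containing it (the ring of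
functions of a smooth affine curve which is finite over the `t`-line), `a_{i 1}, …, a_{i q_i}`
distinct rational numbers, `1 ≤ q_i ≤ Q`, `Q ≥ 2`, and `y_{i j 0} = t - a_{i j}, y_{i j 1}, …`
elements of the radical of the ideal `(t - a_{i j})`, for example generators. Let `K` be a number
field, `0 ≤ θ < 2`, `c` real and `δ > 0`. For all but `M B ^ ([K : ℚ] exponent n Q θ + δ)` of the
`x ∈ K ^ n`, `x_i ≠ a_{i j}`, with `H(x_i) ≤ B`, ALL points `P` of the product of the curves above `x`,
over any number field `L` containing `K`, and ALL finite sets `S` of primes satisfy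
`∑_{v ∈ S ∪ {∞}} λ_{D, v}(P) + ∑_i (canonicalDegree_i + θ) h(x_i) ≤ d(L) + ∑_{p ∈ S} log p + c`.
The exponent is smaller than `2 n`; for `Q = 3` and `θ = 0` it is at most `n (1 - 3 ^ (-n))`. -/
theorem result (K : Type) [Field K] [NumberField K] (n : ℕ) (hn : 1 ≤ n) (Q : ℕ) (hQ : 2 ≤ Q)
    (q : Fin n → ℕ) (hq : ∀ i, 1 ≤ q i) (hqQ : ∀ i, q i ≤ Q) (A : Fin n → Type)
    [∀ i, CommRing (A i)] [∀ i, IsDedekindDomain (A i)] [∀ i, Algebra ℚ (A i)]
    [∀ i, Algebra ℚ[X] (A i)] [∀ i, IsScalarTower ℚ ℚ[X] (A i)] [∀ i, Module.Finite ℚ[X] (A i)]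
    [∀ i, FaithfulSMul ℚ[X] (A i)]
    (a : ∀ i, Fin (q i) → ℚ) (ha : ∀ i, Function.Injective (a i))
    (u : ∀ i, Fin (q i) → ℕ) (y : ∀ i j, Fin (u i j + 1) → A i)
    (hy0 : ∀ i j, y i j 0 = coord (A i) - algebraMap ℚ[X] (A i) (C (a i j)))
    (hyr : ∀ i j l, y i j l ∈
      (Ideal.span {coord (A i) - algebraMap ℚ[X] (A i) (C (a i j))}).radical)
    (θ c δ : ℝ) (hθ0 : 0 ≤ θ) (hθ2 : θ < 2) (hδ : 0 < δ) :
    exponent n Q θ < 2 * n ∧ exponent n 3 0 ≤ n * (1 - (1 / 3) ^ n) ∧
    ∃ M : ℝ, ∀ B : ℝ, 1 ≤ B → (exceptional K a y θ c B).Finite ∧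
      ((exceptional K a y θ c B).ncard : ℝ) ≤
        M * B ^ ((Module.finrank ℚ K : ℝ) * exponent n Q θ + δ) := by
  classical
  have he : ∀ Q θ, exponent n Q θ =
      Pool.Agent.Results.MP_9ec3f0_nt.ProductFibres.exponent n Q (2 - θ) := by
    intro Q θ
    unfold exponent Pool.Agent.Results.MP_9ec3f0_nt.ProductFibres.exponent
    rw [sub_sub_cancel, ← sub_add]
  refine ⟨?_, ?_, ?_⟩
  · rw [he]
    exact Pool.Agent.TH905.VF.exponent_lt n Q hn hQ (2 - θ) (by linarith)
  · refine ((min_le_right _ _).trans (min_le_right _ _)).trans (le_of_eq ?_)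
    have e1 : (1 : ℝ) - 2 / ((3 : ℕ) : ℝ) = 1 / 3 := by norm_num
    rw [e1]
    push_cast
    ring
  · have hd : (0 : ℝ) < Module.finrank ℚ K := by exact_mod_cast Module.finrank_pos
    set d : ℝ := (Module.finrank ℚ K : ℝ) with hdd
    obtain ⟨M, hM⟩ := Pool.Agent.TH905.VF.main_prod K hn Q hQ hq hqQ A a ha u y hy0 hyr (2 - θ)
      (d * c + Real.log |(discr K : ℝ)|) (δ / d) (by linarith) (by linarith) (by positivity)
    refine ⟨M, fun B hB => ?_⟩
    have hB0 : 0 < B := by linarith
    obtain ⟨h1, h2⟩ := hM (B ^ d) (Real.one_le_rpow hB hd.le)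
    have hsub : exceptional K a y θ c B ⊆ Pool.Agent.TH905.VF.EC K a u y (2 - θ)
        (d * c + Real.log |(discr K : ℝ)|) (B ^ d) := by
      rintro x ⟨hne, hB', L, i1, i2, i3, φ, S, hφ, hS, hv⟩
      refine ⟨hne, ?_, L, i1, i2, i3, φ,
        (Pool.Agent.TH905.VF.above_finite K S hS).toFinset, hφ, ?_⟩
      · intro i
        have h3 := hB' i
        rw [← Real.le_log_iff_exp_le hB0] at h3
        unfold height at h3
        rw [← hdd, div_le_iff₀ hd] at h3
        rw [Real.log_rpow hB0]
        linarith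
      · have hL : (0 : ℝ) < Module.finrank K L := Pool.Agent.TH905.VF.finrank_pos'
        have htow : (Module.finrank ℚ L : ℝ) = d * Module.finrank K L := by
          rw [hdd]
          exact_mod_cast (Module.finrank_mul_finrank ℚ K L).symm
        have h3 := Pool.Agent.TH905.VF.sum_above K S hS
          (Pool.Agent.TH905.VF.above_finite K S hS).toFinset fun v hv =>
            (Set.Finite.mem_toFinset (Pool.Agent.TH905.VF.above_finite K S hS)).1 hv
        have h4 : ∑ i, ((q i : ℝ) - (∑ j, (Module.finrank ℚ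
          (A i ⧸ Ideal.span (Set.range (y i j))) : ℝ)) / Module.finrank ℚ[X] (A i) - (2 - θ)) *
            Height.logHeight₁ (x i) = d * ∑ i, (canonicalDegree (y i) + θ) * height (x i) := by
          rw [Finset.mul_sum]
          refine Finset.sum_congr rfl fun i _ => ?_
          unfold canonicalDegree height
          rw [← hdd]
          field_simp
          ring
        have h5 : Pool.Agent.TH905.VF.proxC
            (Pool.Agent.TH905.VF.above_finite K S hS).toFinset y φ = d * proximity S y φ := by
          unfold Pool.Agent.TH905.VF.proxC proximity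
          rw [Pool.Agent.TH905.VF.above_eq S hS, htow]
          have e1 : ∀ w : HeightOneSpectrum (𝓞 L), Pool.Agent.TH905.VF.lF y φ w =
              ∑ i, ∑ j, minusLog (fun l => FinitePlace.mk w (φ i (y i j l))) := fun w => rfl
          have e2 : ∀ w : InfinitePlace L, Pool.Agent.TH905.VF.lI y φ w =
              ∑ i, ∑ j, minusLog (fun l => w (φ i (y i j l))) := fun w => rfl
          simp only [e1, e2]
          rw [mul_div_assoc', mul_div_mul_left _ _ hd.ne']
        have h6 : Pool.Agent.TH905.VF.ld K L = d * logDisc L - Real.log |(discr K : ℝ)| := by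
          unfold Pool.Agent.TH905.VF.ld logDisc
          rw [htow]
          field_simp
        rw [h4, h5, h6]
        have h7 := mul_lt_mul_of_pos_left hv hd
        rw [← hdd] at h3
        linarith
    refine ⟨h1.subset hsub, ?_⟩
    refine le_trans (Nat.cast_le.2 (Set.ncard_le_ncard hsub h1)) (h2.trans (le_of_eq ?_))
    rw [he, ← Real.rpow_mul hB0.le]
    congr 2
    field_simp

end Pool.Agent.Results.MP_651af7_nt.ProductsOfCurvesProximity
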