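import Pool.Agent.TH954.X2.FinS5
import Pool.Agent.TH954.X2.LatTU
import Pool.Agent.TH954.X2.Inst
import Pool.Agent.TH954.X2.Pad
import Pool.Agent.TH954.X.BlkA2
import Pool.Agent.TH954.X.FamR
import Pool.Agent.TH954.X.Greedy
import Pool.Agent.TH954.X.SolveR
import Pool.Agent.TH954.X.Semi
import Pool.Agent.TH954.X.LatU
import Pool.Agent.TH954.X.Gen
import Pool.Agent.TH954.X.IrrT

/-!
# Vojta's inequality for algebraic points near small subgroups, on varieties over products of tori and
abelian varieties
-/

set_option autoImplicit false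

open NumberField MvPolynomial Pool.Agent.TH954.X

namespace Pool.Agent.Results.MP_651af7_nt.ProductsSmallSubgroups

/-- the indices of the factors of `G = 𝔾_m ^ m × ∏ A b ^ k b` -/
abbrev Idx {β : ℕ} (m : ℕ) (k : Fin β → ℕ) : Type := Fin m ⊕ ((b : Fin β) × Fin (k b))

/-- the points over `F` of `G = 𝔾_m ^ m × ∏ A b ^ k b` -/
abbrev Pts {K : Type} [Field K] {n β : ℕ} (A : Fin β → AbV K n) (m : ℕ) (k : Fin β → ℕ) (F : Type)
    [Field F] [Algebra K F] : Type := (Fin m → Fˣ) × (∀ b, Fin (k b) → (A b).Pt F)

/-- the quotient of two points of the group `G`: the coordinates are `x / x'` and `P - P'` -/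
def quot {K : Type} [Field K] {n β : ℕ} {A : Fin β → AbV K n} {m : ℕ} {k : Fin β → ℕ} {F : Type}
    [Field F] [Algebra K F] (Q Q' : Pts A m k F) : Pts A m k F := (Q.1 / Q'.1, Q.2 - Q'.2)

/-- the vector `(1, x, 0, ..., 0)` -/
def vec {F : Type} [Field F] (n : ℕ) (x : F) : Fin n → F :=
  fun c => if c.1 = 0 then 1 else if c.1 = 1 then x else 0

/-- the coordinates of a point of `G`: the vectors `(1, x_i, 0, ..., 0)` for the coordinates in the
multiplicative group, and the coordinates of the points of the abelian varieties -/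
def crds {K : Type} [Field K] {n β : ℕ} {A : Fin β → AbV K n} {m : ℕ} {k : Fin β → ℕ} {F : Type}
    [Field F] [Algebra K F] (Q : Pts A m k F) : Idx m k → Fin n → F :=
  Sum.elim (fun i => vec n ((Q.1 i : Fˣ) : F)) (fun i => (Q.2 i.1 i.2).1)

/-- the coordinates of the point `(t, Q)` of `ℙ × G`, with `ℙ` the projective space of dimension
`n - 1` -/
def full {K : Type} [Field K] {n β : ℕ} {A : Fin β → AbV K n} {m : ℕ} {k : Fin β → ℕ} {F : Type}
    [Field F] [Algebra K F] (t : Fin n → F) (Q : Pts A m k F) : Option (Idx m k) → Fin n → F :=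
  fun o => Option.elim o t (crds Q)

/-- `(t, Q)` is a point over `F` of the closed subset `X : g = 0` of `ℙ × G` -/
def OnX {K : Type} [Field K] {n β : ℕ} {A : Fin β → AbV K n} {m : ℕ} {k : Fin β → ℕ} {q : ℕ}
    (g : Fin q → MvPolynomial (Option (Idx m k) × Fin n) K) {F : Type} [Field F] [Algebra K F]
    (t : Fin n → F) (Q : Pts A m k F) : Prop := t ≠ 0 ∧ ∀ i, ev (g i) (full t Q) = 0

/-- the local height of the point `u` of a product of projective spaces with respect to the
subscheme `W : f = 0`, where `f i` has multidegree `δ i`: minus the logarithm of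
`max_i |f i (u)|_v / ∏_j |u_j|_v ^ (δ i j)`, with `|u_j|_v` the maximum of the absolute values of the
coordinates of `u_j` -/
noncomputable def lambda {K L ι : Type} [Field K] [Field L] [Algebra K L] [Fintype ι] {n s : ℕ}
    (f : Fin s → MvPolynomial (ι × Fin n) K) (δ : Fin s → ι → ℕ)
    (v : AbsoluteValue L ℝ) (u : ι → Fin n → L) : ℝ :=
  -Real.log (⨆ i, v (ev (f i) u) / ∏ j, (⨆ c, v (u j c)) ^ δ i j)

/-- the absolute value of a finite place (normalised so that the product formula holds) -/
def abvFin {L : Type} [Field L] [NumberField L] (v : FinitePlace L) : AbsoluteValue L ℝ := v.val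

/-- the absolute value of an infinite place -/
def abvInf {L : Type} [Field L] (w : InfinitePlace L) : AbsoluteValue L ℝ := w.val

/-- the maximum of the absolute values of `1` and the elements of the finite subset `S` of `K` -/
noncomputable def bound {K L : Type} [Field K] [Field L] [Algebra K L] (S : Finset K)
    (v : AbsoluteValue L ℝ) : ℝ := ⨆ z : {z // z = 1 ∨ z ∈ S}, v (algebraMap K L z.1)

/-- the coordinates of `Q` in the multiplicative group and their inverses have absolute value at
most `max (1, |s|_v : s ∈ S)`; for finite places `v` where the elements of `S` are integral, this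
means that they are units at `v` -/
def UnitsAt {K L : Type} [Field K] [Field L] [Algebra K L] {n β : ℕ} {A : Fin β → AbV K n}
    {m : ℕ} {k : Fin β → ℕ} (S : Finset K) (Q : Pts A m k L) (v : AbsoluteValue L ℝ) : Prop :=
  ∀ i, v ((Q.1 i : Lˣ) : L) ≤ bound S v ∧ v (((Q.1 i)⁻¹ : Lˣ) : L) ≤ bound S v

open Classical in
/-- the local height with respect to `W : f = 0` if `UnitsAt S Q v`, and zero otherwise -/
noncomputable def lambdaU {K L : Type} [Field K] [Field L] [Algebra K L] {n β : ℕ}
    {A : Fin β → AbV K n} {m : ℕ} {k : Fin β → ℕ} {s : ℕ} (S : Finset K)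
    (f : Fin s → MvPolynomial (Option (Idx m k) × Fin n) K) (δ : Fin s → Option (Idx m k) → ℕ)
    (t : Fin n → L) (Q : Pts A m k L) (v : AbsoluteValue L ℝ) : ℝ :=
  if UnitsAt S Q v then lambda f δ v (full t Q) else 0

/-- the part of the height attached to `W : f = 0` coming from the places of `L` with `UnitsAt S Q v`
(if `m = 0`: all places): the sum of the local heights over these places, divided by `[L : K]` -/
noncomputable def heightW {K L : Type} [Field K] [Field L] [NumberField L] [Algebra K L] {n β : ℕ}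
    {A : Fin β → AbV K n} {m : ℕ} {k : Fin β → ℕ} {s : ℕ} (S : Finset K)
    (f : Fin s → MvPolynomial (Option (Idx m k) × Fin n) K) (δ : Fin s → Option (Idx m k) → ℕ)
    (t : Fin n → L) (Q : Pts A m k L) : ℝ :=
  (∑ w : InfinitePlace L, (w.mult : ℝ) * lambdaU S f δ t Q (abvInf w) +
    ∑ᶠ v : FinitePlace L, lambdaU S f δ t Q (abvFin v)) / Module.finrank K L

/-- the sum of the logarithmic heights of the points `u_j` of projective space, relative to `K` (the
heights relative to `L` divided by `[L : K]`) -/
noncomputable def height (K : Type) {L ι : Type} [Field K] [Field L] [NumberField L] [Algebra K L]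
    [Fintype ι] {n : ℕ} (u : ι → Fin n → L) : ℝ :=
  (∑ j, Height.logHeight (u j)) / Module.finrank K L

/-- the image in `G` of the closed subscheme `W : f = 0` of `X : g = 0` has dimension at most `y`:
for each field extension `F` of `K` and every point of `W(F)`, its image in `G(F)` generates an
extension of `K` of transcendence degree at most `y` -/
def ImageDimLe {K : Type} [Field K] {n β : ℕ} (A : Fin β → AbV K n) {m : ℕ} {k : Fin β → ℕ}
    {q s : ℕ} (g : Fin q → MvPolynomial (Option (Idx m k) × Fin n) K)
    (f : Fin s → MvPolynomial (Option (Idx m k) × Fin n) K) (y : ℕ) : Prop :=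
  ∀ (F : Type) [Field F] [Algebra K F] (t : Fin n → F) (Q : Pts A m k F), OnX g t Q →
    (∀ i, ev (f i) (full t Q) = 0) →
    Algebra.trdeg K (IntermediateField.adjoin K
      (Set.range (fun p : Idx m k × Fin n => crds Q p.1 p.2))) ≤ (y : Cardinal)

/-- the subgroup of the multiplicative group generated by the `x j` has rank at most `r` -/
def MulRankLe {L : Type} [Field L] {m : ℕ} (x : Fin m → Lˣ) (r : ℕ) : Prop :=
  Module.finrank ℤ (AddSubgroup.closure (Set.range (fun j => Additive.ofMul (x j)))) ≤ r

/-- the `R`-submodule of `A(L)` generated by the points `P j` has rank at most `r` over the ring of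
endomorphisms `R` (rank at most `r * ρ` over `ℤ`, with `ρ` the rank of `R`) -/
def RankLe {K L : Type} [Field K] [Field L] [Algebra K L] {n : ℕ} (A : AbV K n) {k : ℕ}
    (P : Fin k → A.Pt L) (r : ℕ) : Prop :=
  Module.finrank ℤ (AddSubgroup.closure
    (Set.range (fun p : A.R × Fin k => A.end' L p.1 (P p.2)))) ≤ r * A.ρ

/-- the coordinates of `Q` in the multiplicative group generate a group of rank at most `r0`, and
the coordinates in `A b` a module of rank at most `r b` over the ring of endomorphisms, with
`y + r0 + ∑ r b * dim A b < dim G`; in particular `Q` is in an algebraic subgroup of `G` of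
codimension greater than `y` (and conversely, if the `A b` are simple, pairwise not isogenous, with
`A.R` the ring of all endomorphisms) -/
def Small {K L : Type} [Field K] [Field L] [Algebra K L] {n β : ℕ} (A : Fin β → AbV K n) {m : ℕ}
    {k : Fin β → ℕ} (y : ℕ) (Q : Pts A m k L) : Prop :=
  ∃ (r0 : ℕ) (r : Fin β → ℕ), MulRankLe Q.1 r0 ∧ (∀ b, RankLe (A b) (Q.2 b) (r b)) ∧
    y + (r0 + ∑ b, r b * (A b).dim) < m + ∑ b, k b * (A b).dim

/-- the form `Φ` does not vanish identically on `G` -/
def NotIdenticallyZero {K : Type} [Field K] {n β : ℕ} (A : Fin β → AbV K n) {m : ℕ}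
    {k : Fin β → ℕ} (Φ : MvPolynomial (Idx m k × Fin n) K) : Prop :=
  ∃ (F : Type) (_ : Field F) (_ : Algebra K F) (Q : Pts A m k F), ev Φ (crds Q) ≠ 0

/-- the point `x = (t, Q)` of `X` is not in `W : f = 0`, almost all local heights of `x` as above are
zero, and `h_W(x) ≤ ε h(Q) + C`, with `h(Q)` the sum of the heights of the coordinates of `Q` -/
def Bounded {K L : Type} [Field K] [Field L] [NumberField L] [Algebra K L] {n β : ℕ}
    {A : Fin β → AbV K n} {m : ℕ} {k : Fin β → ℕ} {s : ℕ} (S : Finset K)
    (f : Fin s → MvPolynomial (Option (Idx m k) × Fin n) K) (δ : Fin s → Option (Idx m k) → ℕ)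
    (ε C : ℝ) (t : Fin n → L) (Q : Pts A m k L) : Prop :=
  (∃ i, ev (f i) (full t Q) ≠ 0) ∧
    {v : FinitePlace L | lambdaU S f δ t Q (abvFin v) ≠ 0}.Finite ∧
    heightW S f δ t Q ≤ ε * height K (crds Q) + C

/-- the coordinates `(z, x, y, 0, ..., 0)` of a point of a Weierstrass curve in a projective space of
dimension at least two: `(0, 0, 1, 0, ..., 0)` for the neutral element and `(1, x, y, 0, ..., 0)` for
the other points -/
def wCoords {F : Type} [Field F] {W : WeierstrassCurve F} (n : ℕ) (P : W.toAffine.Point) :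
    Fin n → F :=
  fun c => if h : c.1 < 3 then We.coords P ⟨c.1, h⟩ else 0

/-- the abelian variety `A` is the elliptic curve `y² = x³ + a x + b` with the ring of
endomorphisms `ℤ`: its points over all extension fields `F` are those of Mathlib's Weierstrass curve,
with the same group law and the coordinates `wCoords` -/
def IsWeierstrass {K : Type} [Field K] {n : ℕ} (A : AbV K n) (a b : K) : Prop :=
  A.dim = 1 ∧ A.ρ = 1 ∧ ∀ (F : Type) [Field F] [DecidableEq F] [Algebra K F],
    ∃ e : A.Pt F ≃+ (We.curve (algebraMap K F a) (algebraMap K F b)).toAffine.Point,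
      ∀ P : A.Pt F, P.1 = wCoords n (e P)

lemma rk_of_RankLe {K L : Type} [Field K] [Field L] [Algebra K L] {n : ℕ} (A : AbV K n) {k : ℕ}
    (P : Fin k → A.Pt L) (r : ℕ) (h : RankLe A P r) : A.toAbR.rk k r L P := by
  unfold AbR.rk
  rw [mul_comm]
  refine le_trans (le_of_eq ?_) h
  have h1 : AddSubgroup.closure (Set.range
      (fun p : Fin k × Fin A.ρ => A.end' L (A.basis p.2) (P p.1))) =
      AddSubgroup.closure (Set.range (fun p : A.R × Fin k => A.end' L p.1 (P p.2))) := by
    apply le_antisymm
    · rw [AddSubgroup.closure_le]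
      rintro _ ⟨p, rfl⟩
      exact AddSubgroup.subset_closure ⟨(A.basis p.2, p.1), rfl⟩
    · rw [AddSubgroup.closure_le]
      rintro _ ⟨⟨x, j⟩, rfl⟩
      have h2 : A.end' L x (P j) = ∑ a, A.basis.repr x a • A.end' L (A.basis a) (P j) := by
        conv_lhs => rw [← A.basis.sum_repr x]
        unfold AbR.end'
        rw [map_sum]
        have h3 : ∀ (s : Finset (Fin A.ρ)) (f : Fin A.ρ → AddMonoid.End (A.Pt L)) (z : A.Pt L),
            (∑ a ∈ s, f a) z = ∑ a ∈ s, f a z := by
          classical
          intro s f z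
          induction s using Finset.induction_on with
          | empty => rfl
          | insert a s ha ih =>
            rw [Finset.sum_insert ha, Finset.sum_insert ha, ← ih]
            rfl
        rw [h3]
        refine Finset.sum_congr rfl (fun a _ => ?_)
        rw [map_zsmul]
        rfl
      have h4 : ∑ a, A.basis.repr x a • A.end' L (A.basis a) (P j) ∈ AddSubgroup.closure
          (Set.range (fun p : Fin k × Fin A.ρ => A.end' L (A.basis p.2) (P p.1))) :=
        AddSubgroup.sum_mem _ (fun a _ => AddSubgroup.zsmul_mem _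
          (AddSubgroup.subset_closure (Set.mem_range_self (j, a))) _)
      rw [← h2] at h4
      exact h4
  rw [h1]

lemma UnitsAt_iff {K L : Type} [Field K] [Field L] [Algebra K L] {n β : ℕ} {A : Fin β → AbV K n}
    {m : ℕ} {k : Fin β → ℕ} (S : Finset K) (Q : Pts A m k L) (v : AbsoluteValue L ℝ) :
    UnS S Q.1 v ↔ UnitsAt S Q v := by
  refine forall_congr' (fun i => and_congr Iff.rfl ?_)
  have h1 : 0 < v ((Q.1 i : Lˣ) : L) := v.pos (Q.1 i).ne_zero
  rw [Units.val_inv_eq_inv_val, map_inv₀, inv_le_iff_one_le_mul₀ h1]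
  rfl

theorem exists_W (K : Type) [Field K] [NumberField K] (a b : K)
    (hD : 4 * a ^ 3 + 27 * b ^ 2 ≠ 0) (n : ℕ) (hn : 3 ≤ n) : ∃ A : AbV K n, IsWeierstrass A a b := by
  obtain ⟨A, h1, h2, h3⟩ := We.exists_weierstrass a b hD
  obtain ⟨A', h4, h5, h6⟩ := pad K 3 n hn A
  refine ⟨A', h4.trans h1, h5.trans h2, fun F _ _ _ => ?_⟩
  obtain ⟨e, he⟩ := h3 F
  obtain ⟨e', he'⟩ := h6 F
  refine ⟨e'.trans e, fun P => ?_⟩
  funext c
  rw [he' P c]
  unfold wCoords
  split_ifs with h
  · rw [he (e' P)]
    rfl
  · rfl

/-- **Vojta's inequality for algebraic points near small subgroups, on varieties over products of tori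
and abelian varieties.** Let `A b`, `b = 1, ..., β`, be abelian varieties over the number field `K`
with rings of endomorphisms `R b` (for instance `ℤ`), `G = 𝔾_m ^ m × ∏ A b ^ k b`, `X` a closed
subset of `ℙ × G` (equations `g` in the coordinates `full`), `π : X → G` the projection and `W` a
closed subscheme of `X` (equations `f`, of multidegrees `δ`) with `dim π(W) ≤ y`. Let `S` be a finite
subset of `K`. For every `ε > 0` there are a form `Φ` over `K`, not vanishing identically on `G`, and
real numbers `η > 0` and `C` such that the following holds for all number fields `L` containing `K`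
(of any degree) and all `x = (t, Q)` in `X(L)` such that `Q = π(x)` is near a point `Q'` in `G(L)` as
in `Small`, namely `h(Q / Q') ≤ η (1 + h(Q))` (for instance `Q = Q'`): if `Φ(Q) ≠ 0`, then `x` is not
in `W`, almost all of the local heights of `x` with respect to `W` at the places `v` with
`UnitsAt S Q v` are zero, and their sum satisfies `h_W(x) ≤ ε h(Q) + C`.

Moreover, all elliptic curves `y² = x³ + a x + b` over `K` are examples of such abelian varieties. -/
theorem result :
    (∀ (K : Type) [Field K] [NumberField K] (n β m : ℕ), 2 ≤ n →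
      ∀ (A : Fin β → AbV K n) (k : Fin β → ℕ)
      (y q s : ℕ) (g : Fin q → MvPolynomial (Option (Idx m k) × Fin n) K)
      (f : Fin s → MvPolynomial (Option (Idx m k) × Fin n) K) (δ : Fin s → Option (Idx m k) → ℕ),
        (∀ i, ∃ γ, MH γ (g i)) → (∀ i, MH (δ i) (f i)) → ImageDimLe A g f y →
      ∀ (S : Finset K) (ε : ℝ), 0 < ε →
      ∃ (Φ : MvPolynomial (Idx m k × Fin n) K) (τ : Idx m k → ℕ) (η C : ℝ), MH τ Φ ∧
        NotIdenticallyZero A Φ ∧ 0 < η ∧
        ∀ (L : Type) [Field L] [NumberField L] [Algebra K L] (t : Fin n → L) (Q Q' : Pts A m k L),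
          OnX g t Q → Small A y Q' →
          height K (crds (quot Q Q')) ≤ η * (1 + height K (crds Q)) →
          ev Φ (crds Q) ≠ 0 → Bounded S f δ ε C t Q) ∧
    ∀ (K : Type) [Field K] [NumberField K] (a b : K), 4 * a ^ 3 + 27 * b ^ 2 ≠ 0 →
      ∀ n : ℕ, 3 ≤ n → ∃ A : AbV K n, IsWeierstrass A a b := by
  classical
  refine ⟨?_, fun K _ _ a b hD n hn => exists_W K a b hD n hn⟩
  intro K _ _ n β m hn A k y q s g f δ hg hf hdim S ε hε
  obtain ⟨Φ, τ, h1, h2, η, hη, C, h3⟩ := finS5 (blkA2 famR latT' greedy solveR)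
    (blkT2 latU semi solveR) unT irrT gen hn A m k y g hg f δ hf
    (fun F _ _ x P t ht hgt hP => hdim F t (x, P) ⟨ht.ne_zero, hgt⟩ hP) S ε hε
  refine ⟨Φ, τ, η, C * Module.finrank ℚ K, h1, ?_, hη,
    fun L _ _ _ t Q Q' hX hrk hnear hP => ?_⟩
  · obtain ⟨F, iF, iA, x, P, hxP⟩ := h2
    exact ⟨F, iF, iA, (x, P), hxP⟩
  obtain ⟨r0, r, hrk0, hrk, hr⟩ := hrk
  have h7 : Module.finrank ℚ K * Module.finrank K L = Module.finrank ℚ L :=
    Module.finrank_mul_finrank ℚ K L
  have h8 : 0 < Module.finrank K L := by
    have h6 : 0 < Module.finrank ℚ L := Module.finrank_pos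
    rcases Nat.eq_zero_or_pos (Module.finrank K L) with h | h
    · rw [h, mul_zero] at h7
      omega
    · exact h
  have h9 : (0 : ℝ) < Module.finrank K L := by exact_mod_cast h8
  have h10 : (Module.finrank ℚ L : ℝ) = Module.finrank ℚ K * Module.finrank K L := by
    rw [← h7]
    push_cast
    rfl
  have h12 : (Module.finrank K L : ℝ) ≤ Module.finrank ℚ L := by
    have h13 : (1 : ℝ) ≤ Module.finrank ℚ K := by
      exact_mod_cast (Module.finrank_pos : 0 < Module.finrank ℚ K)
    rw [h10]
    nlinarith
  obtain ⟨h4, h5, h6⟩ := h3 L Q.1 Q'.1 Q.2 Q'.2 t r0 r hX.1 hX.2 hr hrk0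
    (fun b => rk_of_RankLe _ _ _ (hrk b)) (by
    unfold height at hnear
    rw [div_le_iff₀ h9] at hnear
    have h15 : η * (1 + (∑ i, Height.logHeight (crds Q i)) / Module.finrank K L) *
        Module.finrank K L = η * (Module.finrank K L + ∑ i, Height.logHeight (crds Q i)) := by
      field_simp
    rw [h15] at hnear
    have h16 : ∑ i, Height.logHeight (crds (quot Q Q') i) =
        ∑ j, Height.logHeight (tvec n ((Q.1 j / Q'.1 j : Lˣ) : L)) +
          ∑ i : (b : Fin β) × Fin (k b), Height.logHeight (Q.2 i.1 i.2 - Q'.2 i.1 i.2).1 :=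
      Fintype.sum_sum_type _
    rw [h16] at hnear
    refine hnear.trans ?_
    refine mul_le_mul_of_nonneg_left ?_ hη.le
    exact add_le_add_left h12 _) hP
  have hfun : ∀ w : AbsoluteValue L ℝ, lambdaU S f δ t Q w =
      if UnS S Q.1 w then
        -Real.log (⨆ i, nvW w (δ i) (f i) (ext t (crdS A Q.1 Q.2))) else 0 := by
    intro w
    unfold lambdaU
    exact (if_congr (UnitsAt_iff S Q w) rfl rfl).symm
  refine ⟨h4, ?_, ?_⟩
  · refine h5.subset (fun v hv => ?_)
    have h17 : lambdaU S f δ t Q (abvFin v) ≠ 0 := hv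
    rw [hfun] at h17
    exact h17
  unfold heightW height
  rw [div_le_iff₀ h9]
  have h11 : (ε * ((∑ j, Height.logHeight (crds Q j)) / Module.finrank K L) +
      C * Module.finrank ℚ K) * Module.finrank K L =
      ε * ∑ j, Height.logHeight (crds Q j) + C * Module.finrank ℚ L := by
    rw [h10]
    field_simp
  rw [h11]
  simp only [hfun]
  exact h6

end Pool.Agent.Results.MP_651af7_nt.ProductsSmallSubgroups
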